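import Pool.Agent.Y234.AM.Non2

/-!
# The odd-dimensional quadrics in characteristic two are not isomorphic to projective spaces, III
-/

namespace Pool.Agent.Y234.AM

open MvPolynomial Pool.Agent.H824


section

variable {k : Type} [Field k] {m : ℕ}

/-- the first step: the numbers of the degrees -/
theorem step1 [IsAlgClosed k] [CharP k 2] {n : ℕ}
    (θ : (quadVar k m).functionField ≃ₐ[k] (PS k n).functionField)
    (hθ1 : ∀ z ∈ (quadVar k m).points, ∃ w ∈ (PS k n).points,
      θ '' (quadVar k m).localRing z = (PS k n).localRing w)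
    (hθ2 : ∀ w ∈ (PS k n).points, ∃ z ∈ (quadVar k m).points,
      θ '' (quadVar k m).localRing z = (PS k n).localRing w) :
    ∃ (d d' : ℕ) (g : Fin (n + 1) → MvPolynomial (Fin (m + 1) × Fin 2) k)
      (p : Option (Fin (m + 1) × Fin 2) → MvPolynomial (Fin (n + 1)) k)
      (U : MvPolynomial (Fin (m + 1) × Fin 2) k),
      d * d' = 2 ∧ (∀ i, (g i).IsHomogeneous d) ∧ g 0 ≠ 0 ∧ (∀ a, (p a).IsHomogeneous d') ∧
      (∀ i, Ps (quadPar k m) θ (rat (PS k n) i 0) =
        (quadPar k m).φ (g i) / (quadPar k m).φ (g 0)) ∧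
      (∀ s : Fin (m + 1) × Fin 2 → k, s ≠ 0 → ∃ j, eval s (g j) ≠ 0) ∧ IsUnit U ∧
      ∀ a, aeval g (p a) = gq k m a * U := by
  classical
  set c : Option (Fin (m + 1) × Fin 2) := some (0, 0) with hcdef
  have hc : (quadVar k m).el (X c) ≠ 0 := xi_some_ne _
  obtain ⟨d, g, hg1, hg2, hg3, hg4⟩ := exists_coords (quadPar k m) θ (0 : Fin (n + 1))
    (proj_el_X_ne k n 0) hθ1 (fun i _ _ _ => proj_el_X_ne k n i)
  have hθ2' : ∀ w ∈ (PS k n).points, ∃ z ∈ (quadVar k m).points,
      θ.symm '' (PS k n).localRing w = (quadVar k m).localRing z := by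
    intro w hw
    obtain ⟨z, hz, h⟩ := hθ2 w hw
    refine ⟨z, hz, ?_⟩
    rw [← h, Set.image_image]
    simp
  obtain ⟨d', p, hp1, hp2, hp3, hp4⟩ := exists_coords (projPar k n) θ.symm c hc hθ2'
    (fun i z hz hzi => el_ne_of_eval hz (by simpa using hzi))
  have hrel : ∀ a, gq k m a * aeval g (p c) = X (0, 0) ^ 2 * aeval g (p a) := by
    intro a
    have hy : ((θ (rat (quadVar k m) a c) : (PS k n).functionField) : (PS k n).ConeField) *
        (PS k n).el (p c) = (PS k n).el (p a) := by
      have h1 := hp3 a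
      rw [Ps_apply] at h1
      have h2 : ((θ (rat (quadVar k m) a c) : (PS k n).functionField) : (PS k n).ConeField) =
          (PS k n).el (p a) / (PS k n).el (p c) := h1
      rw [h2, div_mul_cancel₀]
      intro h
      apply hp2
      exact projPhi_inj k n (by rw [projPhi_apply, h, map_zero])
    have h1 := coords_rel (quadPar k m) θ 0 (proj_el_X_ne k n 0) hg2 hg3 (hp1 a) (hp1 c) _ hy
    have h2 : Ps (quadPar k m) θ (θ (rat (quadVar k m) a c)) =
        (quadPar k m).φ (gq k m a) / (quadPar k m).φ (X (0, 0) ^ 2) := by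
      rw [Ps_apply, AlgEquiv.symm_apply_apply]
      change (quadPar k m).ψ ((quadVar k m).el (X a) / (quadVar k m).el (X c)) = _
      rw [map_div₀, (quadPar k m).ψ_el, (quadPar k m).ψ_el, aeval_X, aeval_X]
      rfl
    have h3 : (quadPar k m).φ (X (0, 0) ^ 2) ≠ 0 := by
      intro h
      have h4 := (quadPar k m).inj (h.trans (map_zero _).symm)
      exact pow_ne_zero _ (X_ne_zero _) h4
    rw [h2] at h1
    apply (quadPar k m).inj
    rw [map_mul, map_mul, ← h1]
    field_simp
  have hX0 : Prime (X (0, 0) : MvPolynomial (Fin (m + 1) × Fin 2) k) := X_prime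
  have hdvd : (X (0, 0) : MvPolynomial (Fin (m + 1) × Fin 2) k) ^ 2 ∣ aeval g (p c) := by
    have h1 := hrel (some (0, 1))
    refine hX0.pow_dvd_of_dvd_mul_left 2 (a := X (0, 1) ^ 2) ?_ ⟨_, h1⟩
    intro h
    have h2 := hX0.dvd_of_dvd_pow h
    rw [X_dvd_X] at h2
    simp at h2
  obtain ⟨U, hU⟩ := hdvd
  have hX02 : (X (0, 0) : MvPolynomial (Fin (m + 1) × Fin 2) k) ^ 2 ≠ 0 :=
    pow_ne_zero _ (X_ne_zero _)
  have hPU : ∀ a, aeval g (p a) = gq k m a * U := by
    intro a
    apply mul_left_cancel₀ hX02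
    rw [← hrel a, hU]
    ring
  have hUu : IsUnit U := by
    refine isUnit_of_no_zero U ?_ (0, 0) (0, 1) (by simp)
    intro w hw
    by_contra hw0
    obtain ⟨j, hj⟩ := hg4 w hw0
    have h1 : (fun i => eval w (g i)) ≠ 0 := by
      intro h
      exact hj (congrFun h j)
    obtain ⟨a, ha⟩ := hp4 _ h1
    apply ha
    rw [← eval_aeval, hPU, map_mul, hw, mul_zero]
  have hdeg : d * d' = 2 := by
    have h1 : (aeval g (p c)).IsHomogeneous (d * d') := (hp1 c).aeval g hg1
    obtain ⟨u, hu, hu2⟩ : ∃ u : k, u ≠ 0 ∧ U = C u := by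
      obtain ⟨r, hr, hr2⟩ := (MvPolynomial.isUnit_iff_eq_C_of_isReduced).mp hUu
      exact ⟨r, hr.ne_zero, hr2⟩
    have h2 : (aeval g (p c)).IsHomogeneous 2 := by
      rw [hU, hu2]
      have h3 := ((isHomogeneous_X k ((0 : Fin (m + 1)), (0 : Fin 2))).pow 2).mul
        (isHomogeneous_C (Fin (m + 1) × Fin 2) u)
      simpa using h3
    refine h1.inj_right h2 ?_
    rw [hU]
    exact mul_ne_zero hX02 hUu.ne_zero
  exact ⟨d, d', g, p, U, hdeg, hg1, hg2, hp1, hg3, hg4, hUu, hPU⟩

/-- the ratio of two parameters is not a rational function on the quadric -/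
theorem ratio_notMem [CharP k 2] (hm : 1 ≤ m) (v : (quadVar k m).functionField)
    (hv : (quadPar k m).ψ v * (quadPar k m).φ (X (0, 1)) = (quadPar k m).φ (X (0, 0))) : False := by
  classical
  obtain ⟨e, F, G, hF, hG, hG0, hvFG⟩ := (quadVar k m).exists_forms v
  have h1 : (quadPar k m).φ (aeval (gq k m) G) ≠ 0 := by
    have h2 : (quadPar k m).ψ ((quadVar k m).el G) = (quadPar k m).φ (aeval (gq k m) G) :=
      (quadPar k m).ψ_el G
    rw [← h2]
    intro h3
    apply hG0
    apply (quadPar k m).ψ.toRingHom.injective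
    change (quadPar k m).ψ ((quadVar k m).el G) = (quadPar k m).ψ 0
    rw [h3, map_zero]
  have h2 : (quadPar k m).ψ v = (quadPar k m).φ (aeval (gq k m) F) /
      (quadPar k m).φ (aeval (gq k m) G) := by
    rw [hvFG, map_div₀, (quadPar k m).ψ_el, (quadPar k m).ψ_el]
    rfl
  rw [h2, div_mul_eq_mul_div, div_eq_iff h1, ← map_mul, ← map_mul] at hv
  have h3 := congrArg (D0 k m ⟨1, by omega⟩) ((quadPar k m).inj hv)
  rw [Derivation.leibniz, Derivation.leibniz, D0_gq, D0_gq, smul_zero, smul_zero, add_zero,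
    zero_add, smul_eq_mul, smul_eq_mul] at h3
  have h4 : D0 k m ⟨1, by omega⟩ (X (0, 0)) = X (⟨1, by omega⟩, 1) := by
    unfold D0
    rw [Derivation.add_apply, Derivation.smul_apply, Derivation.smul_apply, pderiv_X_self,
      pderiv_X_of_ne (by simp [Fin.ext_iff])]
    simp
  have h5 : D0 k m ⟨1, by omega⟩ (X (0, 1)) = 0 := by
    unfold D0
    rw [Derivation.add_apply, Derivation.smul_apply, Derivation.smul_apply,
      pderiv_X_of_ne (by simp), pderiv_X_of_ne (by simp)]
    simp
  rw [h4, h5, mul_zero] at h3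
  rcases mul_eq_zero.mp h3.symm with h6 | h6
  · rw [h6, map_zero] at h1
    exact h1 rfl
  · exact X_ne_zero _ h6

/-- The quadric of dimension `2m + 1 ≥ 3` is not isomorphic to a projective space. -/
theorem not_iso [IsAlgClosed k] [CharP k 2] (hm : 1 ≤ m) (n : ℕ) :
    ¬ (quadVar k m).IsIsomorphic (projectiveSpace k (Fin (n + 1))) := by
  classical
  rintro ⟨θ, hθ1, hθ2⟩
  have hn : n = 2 * m + 1 := by
    have h1 := θ.trdeg_eq
    have h2 := quad_dim (k := k) (m := m)
    unfold ProjVariety.dim fieldDim at h2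
    have h3 : Algebra.trdeg k (projectiveSpace k (Fin (n + 1))).functionField = n :=
      proj_trdeg k n
    rw [h1, h3, Cardinal.toNat_natCast] at h2
    exact h2
  obtain ⟨d, d', g, p, U, hdd, hg1, hg0, hp1, hg3, hg4, hU, hPU⟩ := step1 (n := n) θ hθ1 hθ2
  have hcases : (d = 1 ∧ d' = 2) ∨ (d = 2 ∧ d' = 1) := by
    have h1 : d ∣ 2 := ⟨d', hdd.symm⟩
    have h2 : d ≤ 2 := Nat.le_of_dvd (by norm_num) h1
    interval_cases d
    · omega
    · left; omega
    · right; omega
  rcases hcases with ⟨rfl, rfl⟩ | ⟨rfl, rfl⟩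
  · -- linear forms: the function field of the quadric would be the field of the parameters
    have hmem : ∀ b, ∃ v : (quadVar k m).functionField,
        (quadPar k m).ψ v * (quadPar k m).φ (g 0) = (quadPar k m).φ (X b) := by
      intro b
      obtain ⟨h, hh⟩ := X_eq_sum g hg1 hg4 b
      refine ⟨∑ i, h i • θ.symm (rat (PS k n) i 0), ?_⟩
      have hφ0 : (quadPar k m).φ (g 0) ≠ 0 := fun h => hg0 ((quadPar k m).inj (by rw [h, map_zero]))
      have h1 : (quadPar k m).ψ ((∑ i, h i • θ.symm (rat (PS k n) i 0) :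
          (quadVar k m).functionField) : (quadVar k m).ConeField) =
          ∑ i, h i • ((quadPar k m).φ (g i) / (quadPar k m).φ (g 0)) := by
        have h2 : (quadPar k m).ψ ((∑ i, h i • θ.symm (rat (PS k n) i 0) :
            (quadVar k m).functionField) : (quadVar k m).ConeField) =
            ((quadPar k m).ψ.comp (quadVar k m).functionField.val)
              (∑ i, h i • θ.symm (rat (PS k n) i 0)) := rfl
        rw [h2, map_sum]
        apply Finset.sum_congr rfl
        intro i _
        rw [map_smul, ← hg3 i]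
        rfl
      rw [h1, Finset.sum_mul, hh, map_sum]
      apply Finset.sum_congr rfl
      intro i _
      rw [map_mul, smul_mul_assoc, div_mul_cancel₀ _ hφ0, Algebra.smul_def]
      congr 1
    obtain ⟨v, hv⟩ := hmem (0, 0)
    obtain ⟨v', hv'⟩ := hmem (0, 1)
    have hX1 : (quadPar k m).φ (X (0, 1)) ≠ 0 := fun h =>
      X_ne_zero _ ((quadPar k m).inj (h.trans (map_zero _).symm))
    have hv'0 : (quadPar k m).ψ (v' : (quadVar k m).ConeField) ≠ 0 := by
      intro h
      rw [h, zero_mul] at hv'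
      exact hX1 hv'.symm
    apply ratio_notMem hm (v / v')
    change (quadPar k m).ψ ((v : (quadVar k m).ConeField) / v') * _ = _
    rw [map_div₀, ← hv, ← hv']
    field_simp
  · -- quadratic forms: too many linearly independent coordinates
    obtain ⟨u, hu⟩ := hU
    have hspan : ∀ a, gq k m a ∈ Submodule.span k (Set.range g) := by
      intro a
      obtain ⟨r, hr, hr2⟩ := (MvPolynomial.isUnit_iff_eq_C_of_isReduced (P := U)).mp ⟨u, hu⟩
      have h1 := hPU a
      have h2 : aeval g (p a) ∈ Submodule.span k (Set.range g) := by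
        rw [linear_form (hp1 a), map_sum]
        refine Submodule.sum_mem _ fun i _ => ?_
        rw [map_mul, aeval_C, aeval_X, ← Algebra.smul_def]
        exact Submodule.smul_mem _ _ (Submodule.subset_span ⟨i, rfl⟩)
      have h3 : gq k m a = r⁻¹ • aeval g (p a) := by
        rw [h1, hr2, mul_comm, ← smul_eq_C_mul, smul_smul, inv_mul_cancel₀ hr.ne_zero, one_smul]
      rw [h3]
      exact Submodule.smul_mem _ _ h2
    have h1 : Module.finrank k (Submodule.span k (Set.range (gq k m))) =
        Fintype.card (Option (Fin (m + 1) × Fin 2)) :=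
      finrank_span_eq_card gq_linearIndependent
    have h2 : Submodule.span k (Set.range (gq k m)) ≤ Submodule.span k (Set.range g) := by
      rw [Submodule.span_le]
      rintro _ ⟨a, rfl⟩
      exact hspan a
    have h3 : Module.finrank k (Submodule.span k (Set.range g)) ≤ Fintype.card (Fin (n + 1)) :=
      finrank_range_le_card g
    have : FiniteDimensional k (Submodule.span k (Set.range g)) :=
      FiniteDimensional.span_of_finite k (Set.finite_range g)
    have h4 := Submodule.finrank_mono h2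
    rw [h1] at h4
    simp only [Fintype.card_option, Fintype.card_prod, Fintype.card_fin] at h4 h3
    omega

end

end Pool.Agent.Y234.AM
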