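import Pool.Agent.H824.AmpD

/-!
# Isomorphisms of projective varieties in homogeneous coordinates
-/

namespace Pool.Agent.Y234.AM

open MvPolynomial Pool.Agent.H824

theorem eval_aeval {k ι σ : Type*} [Field k] (g : ι → MvPolynomial σ k) (s : σ → k)
    (F : MvPolynomial ι k) : eval s (aeval g F) = eval (fun i => eval s (g i)) F := by
  induction F using MvPolynomial.induction_on with
  | C a => simp
  | add p q hp hq => simp only [map_add, hp, hq]
  | mul_X p j hp => simp only [map_mul, hp, aeval_X, eval_X]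

/-- A parametrization of a projective variety by forms, together with an embedding of the fraction
field of the homogeneous coordinate ring in the field of the parameters. -/
structure Par {k ι : Type*} [Field k] (V : ProjVariety k ι) (σ M : Type*) [Field M]
    [Algebra k M] where
  g : ι → MvPolynomial σ k
  φ : MvPolynomial σ k →ₐ[k] M
  inj : Function.Injective φ
  ψ : V.ConeField →ₐ[k] M
  q : ℕ
  homog : ∀ i, (g i).IsHomogeneous q
  ψ_el : ∀ F, ψ (V.el F) = φ (aeval g F)
  pt : ∀ s : σ → k, s ≠ 0 → (fun i => eval s (g i)) ∈ V.points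

section

variable {k ι κ σ M : Type*} [Field k] [Field M] [Algebra k M]
  {V : ProjVariety k ι} {W : ProjVariety k κ}

/-- the ratio of two coordinates, in the function field -/
noncomputable def rat (W : ProjVariety k κ) (i c : κ) : W.functionField :=
  ⟨W.el (X i) / W.el (X c), W.coord_ratio_mem i c⟩

theorem rat_mul (W : ProjVariety k κ) (c : κ) (hc : W.el (X c) ≠ 0) (i : κ) :
    W.el (X c) * (rat W i c : W.ConeField) = W.el (X i) := mul_div_cancel₀ _ hc

theorem el_eq_rat (W : ProjVariety k κ) (c : κ) (hc : W.el (X c) ≠ 0) {P : MvPolynomial κ k}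
    {e : ℕ} (hP : P.IsHomogeneous e) :
    W.el P = W.el (X c) ^ e * ((aeval (fun i => rat W i c) P : W.functionField) : W.ConeField) := by
  have h1 : ((aeval (fun i => rat W i c) P : W.functionField) : W.ConeField) =
      aeval (fun i => (rat W i c : W.ConeField)) P := by
    change algebraMap W.functionField W.ConeField _ = _
    rw [← MvPolynomial.aeval_algebraMap_apply]
    rfl
  rw [h1, ← aeval_smul_of_homog P hP, ProjVariety.el_eq_aeval]
  congr 2
  funext i
  exact (rat_mul W c hc i).symm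

theorem rel_of_rel (W : ProjVariety k κ) (c : κ) (hc : W.el (X c) ≠ 0) {P Q : MvPolynomial κ k}
    {e : ℕ} (hP : P.IsHomogeneous e) (hQ : Q.IsHomogeneous e) (y : W.functionField)
    (hy : (y : W.ConeField) * W.el Q = W.el P) :
    y * aeval (fun i => rat W i c) Q = aeval (fun i => rat W i c) P := by
  rw [el_eq_rat W c hc hP, el_eq_rat W c hc hQ] at hy
  apply Subtype.ext
  apply mul_left_cancel₀ (pow_ne_zero e hc)
  rw [← hy]
  change _ * ((y : W.ConeField) * _) = _
  ring

variable (S : Par V σ M) (θ : V.functionField ≃ₐ[k] W.functionField)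

/-- the embedding of the function field of `W` -/
noncomputable def Ps : W.functionField →ₐ[k] M :=
  (S.ψ.comp V.functionField.val).comp θ.symm.toAlgHom

theorem Ps_apply (y : W.functionField) : Ps S θ y = S.ψ (θ.symm y : V.ConeField) := rfl

/-- The pull-back of the homogeneous coordinates under an isomorphism. -/
theorem exists_coords [Finite κ] (c : κ) (hc : W.el (X c) ≠ 0)
    (hθ : ∀ z ∈ V.points, ∃ w ∈ W.points, θ '' V.localRing z = W.localRing w)
    (hW : ∀ i, ∀ w ∈ W.points, w i ≠ 0 → W.el (X i) ≠ 0) :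
    ∃ (d : ℕ) (G : κ → MvPolynomial σ k), (∀ i, (G i).IsHomogeneous d) ∧ G c ≠ 0 ∧
      (∀ i, Ps S θ (rat W i c) = S.φ (G i) / S.φ (G c)) ∧
      (∀ s : σ → k, s ≠ 0 → ∃ j, eval s (G j) ≠ 0) := by
  classical
  have hS0 : ∀ F : MvPolynomial σ k, F ≠ 0 → S.φ F ≠ 0 := fun F hF h =>
    hF (S.inj (by rw [h, map_zero]))
  obtain ⟨d, G, hG1, hG2, hG3, hG4⟩ := exists_coprime_forms (S.φ : MvPolynomial σ k →+* M) S.inj
    (fun i => Ps S θ (rat W i c)) c (by
      have h1 : rat W c c = 1 := by
        apply Subtype.ext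
        exact div_self hc
      change Ps S θ (rat W c c) = 1
      rw [h1, map_one]) (by
      intro i
      obtain ⟨e, F, G, hF, hG, hG0, hu⟩ := V.exists_forms (θ.symm (rat W i c))
      refine ⟨S.q * e, aeval S.g F, aeval S.g G, hF.aeval S.g S.homog, hG.aeval S.g S.homog, ?_, ?_⟩
      · intro h
        apply hG0
        apply S.ψ.toRingHom.injective
        change S.ψ (V.el G) = S.ψ 0
        rw [S.ψ_el, h, map_zero, map_zero]
      · change Ps S θ (rat W i c) = S.φ _ / S.φ _
        rw [Ps_apply, hu, map_div₀, S.ψ_el, S.ψ_el])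
  refine ⟨d, G, hG1, hG2, hG3, ?_⟩
  intro s hs
  obtain ⟨w, hw, hloc⟩ := hθ _ (S.pt s hs)
  obtain ⟨j, hj⟩ : ∃ j, w j ≠ 0 := Function.ne_iff.mp hw.1
  have hWj := hW j w hw hj
  have hrj : rat W j c ≠ 0 := by
    intro h
    have h1 := congrArg (fun y : W.functionField => (y : W.ConeField)) h
    change W.el (X j) / W.el (X c) = 0 at h1
    exact div_ne_zero hWj hc h1
  have hGj : G j ≠ 0 := by
    intro h
    have h1 := hG3 j
    change Ps S θ (rat W j c) = S.φ (G j) / S.φ (G c) at h1
    rw [h, map_zero, zero_div] at h1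
    exact hrj ((Ps S θ).toRingHom.injective (by
      change Ps S θ (rat W j c) = Ps S θ 0
      rw [h1, map_zero]))
  refine ⟨j, eval_ne_zero_of_ratios (S.φ : MvPolynomial σ k →+* M) S.inj G hG4 s j hGj ?_⟩
  intro i
  have h1 : rat W i j ∈ W.localRing w := ⟨1, X i, X j, isHomogeneous_X _ _, isHomogeneous_X _ _,
    by simpa using hj, rfl⟩
  rw [← hloc] at h1
  obtain ⟨t, ⟨e, P, Q, hP, hQ, hQz, ht⟩, ht2⟩ := h1
  refine ⟨aeval S.g P, aeval S.g Q, ?_, ?_⟩
  · rw [eval_aeval]
    exact hQz
  · have h2 : Ps S θ (rat W i j) = S.φ (aeval S.g P) / S.φ (aeval S.g Q) := by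
      rw [Ps_apply, ← ht2, AlgEquiv.symm_apply_apply, ht, map_div₀, S.ψ_el, S.ψ_el]
    have h3 : rat W i j * rat W j c = rat W i c := by
      apply Subtype.ext
      change W.el (X i) / W.el (X j) * (W.el (X j) / W.el (X c)) = W.el (X i) / W.el (X c)
      field_simp
    have h4 := congrArg (Ps S θ) h3
    rw [map_mul] at h4
    have h5 : Ps S θ (rat W i c) = S.φ (G i) / S.φ (G c) := hG3 i
    have h6 : Ps S θ (rat W j c) = S.φ (G j) / S.φ (G c) := hG3 j
    rw [h5, h6, h2] at h4
    change S.φ (G i) / S.φ (G j) = S.φ (aeval S.g P) / S.φ (aeval S.g Q)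
    have h7 := hS0 _ hG2
    have h8 := hS0 _ hGj
    rw [div_eq_iff h8]
    have h9 : S.φ (aeval S.g P) / S.φ (aeval S.g Q) * (S.φ (G j) / S.φ (G c)) * S.φ (G c) =
        S.φ (G i) := by
      rw [h4, div_mul_cancel₀ _ h7]
    rw [← h9]
    field_simp

theorem coords_rel (c : κ) (hc : W.el (X c) ≠ 0) {G : κ → MvPolynomial σ k} (hG0 : G c ≠ 0)
    (hG : ∀ i, Ps S θ (rat W i c) = S.φ (G i) / S.φ (G c)) {P Q : MvPolynomial κ k}
    {e : ℕ} (hP : P.IsHomogeneous e) (hQ : Q.IsHomogeneous e) (y : W.functionField)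
    (hy : (y : W.ConeField) * W.el Q = W.el P) :
    Ps S θ y * S.φ (aeval G Q) = S.φ (aeval G P) := by
  have hc0 : S.φ (G c) ≠ 0 := fun h => hG0 (S.inj (by rw [h, map_zero]))
  have key : ∀ {P : MvPolynomial κ k}, P.IsHomogeneous e →
      S.φ (aeval G P) = S.φ (G c) ^ e * Ps S θ (aeval (fun i => rat W i c) P) := by
    intro P hP
    have h1 : Ps S θ (aeval (fun i => rat W i c) P) = aeval (fun i => Ps S θ (rat W i c)) P := by
      rw [← MvPolynomial.comp_aeval_apply]
    have h2 : S.φ (aeval G P) = aeval (fun i => S.φ (G i)) P := by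
      rw [← MvPolynomial.comp_aeval_apply]
    rw [h1, h2, ← aeval_smul_of_homog P hP]
    congr 2
    funext i
    rw [hG i, mul_div_cancel₀ _ hc0]
  have h1 := congrArg (Ps S θ) (rel_of_rel W c hc hP hQ y hy)
  rw [map_mul] at h1
  rw [key hP, key hQ, ← h1]
  ring

end

end Pool.Agent.Y234.AM
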