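import Pool.Agent.H824.AmpD

/-!
# A nowhere vanishing morphism `O(1) → T` on the odd-dimensional quadrics in characteristic two
-/

namespace Pool.Agent.Y234.AM

open MvPolynomial Pool.Agent.H824

variable {k : Type*} [Field k] {m : ℕ}

theorem dz_aux [CharP k 2] (F : MvPolynomial (Option (Fin (m + 1) × Fin 2)) k)
    (hF : (quadVar k m).toCoord F = 0) : (quadVar k m).toCoord (pderiv none F) = 0 := by
  have h1 : F ∈ (quadVar k m).ideal := Ideal.Quotient.eq_zero_iff_mem.mp hF
  exact Ideal.Quotient.eq_zero_iff_mem.mpr (pderiv_none_mem F h1)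

/-- the derivative with respect to `z` on the homogeneous coordinate ring -/
noncomputable def dz (k : Type*) [Field k] (m : ℕ) [CharP k 2] :
    Derivation k (quadVar k m).CoordRing (quadVar k m).CoordRing :=
  Derivation.liftOfSurjective (f := (quadVar k m).toCoord)
    (Ideal.Quotient.mk_surjective) (d := pderiv none) dz_aux

theorem dz_apply [CharP k 2] (F : MvPolynomial (Option (Fin (m + 1) × Fin 2)) k) :
    dz k m ((quadVar k m).toCoord F) = (quadVar k m).toCoord (pderiv none F) :=
  Derivation.liftOfSurjective_apply (f := (quadVar k m).toCoord)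
    (Ideal.Quotient.mk_surjective) (d := pderiv none) dz_aux F

/-- the extension to the fraction field -/
theorem exists_D [CharP k 2] : ∃ D : Derivation k (quadVar k m).ConeField (quadVar k m).ConeField,
    ∀ F, D ((quadVar k m).el F) = (quadVar k m).el (pderiv none F) := by
  obtain ⟨D, hD⟩ := exists_lift_derivation (k := k) (R := (quadVar k m).CoordRing)
    (M := (quadVar k m).ConeField)
    ((Algebra.linearMap (quadVar k m).CoordRing (quadVar k m).ConeField).compDer (dz k m))
  refine ⟨D, fun F => ?_⟩
  unfold ProjVariety.el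
  rw [hD]
  change algebraMap _ _ (dz k m ((quadVar k m).toCoord F)) = _
  rw [dz_apply]

/-- `∂/∂z` on the fraction field of the homogeneous coordinate ring -/
noncomputable def DD (k : Type*) [Field k] (m : ℕ) [CharP k 2] :
    Derivation k (quadVar k m).ConeField (quadVar k m).ConeField := (exists_D (k := k) (m := m)).choose

theorem DD_el [CharP k 2] (F : MvPolynomial (Option (Fin (m + 1) × Fin 2)) k) :
    DD k m ((quadVar k m).el F) = (quadVar k m).el (pderiv none F) :=
  (exists_D (k := k) (m := m)).choose_spec F

theorem DD_div [CharP k 2] (F G : MvPolynomial (Option (Fin (m + 1) × Fin 2)) k)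
    (hG : (quadVar k m).el G ≠ 0) :
    DD k m ((quadVar k m).el F / (quadVar k m).el G) =
      (quadVar k m).el (pderiv none F * G - F * pderiv none G) / (quadVar k m).el (G * G) := by
  set u := (quadVar k m).el F / (quadVar k m).el G with hu
  have h1 : u * (quadVar k m).el G = (quadVar k m).el F := div_mul_cancel₀ _ hG
  have h2 := congrArg (DD k m) h1
  rw [Derivation.leibniz, DD_el, DD_el, smul_eq_mul, smul_eq_mul] at h2
  have h3 : DD k m u = ((quadVar k m).el (pderiv none F) - u * (quadVar k m).el (pderiv none G)) /
      (quadVar k m).el G := by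
    rw [eq_div_iff hG]
    linear_combination h2
  rw [h3, ProjVariety.el_sub, ProjVariety.el_mul, ProjVariety.el_mul, ProjVariety.el_mul, hu]
  field_simp

theorem pderiv_homog {σ : Type*} {F : MvPolynomial σ k} {e : ℕ} (hF : F.IsHomogeneous e) (i : σ)
    {l : ℕ} (hl : l + 1 = e) : (pderiv i F).IsHomogeneous l := by
  subst hl
  exact hF.pderiv

/-- The product of a form of degree one and of the derivative of a quotient of forms. -/
theorem num_homog {F G P : MvPolynomial (Option (Fin (m + 1) × Fin 2)) k} {d e : ℕ}
    (hF : F.IsHomogeneous e) (hG : G.IsHomogeneous e) (hP : P.IsHomogeneous (d + 1)) :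
    (P * (pderiv none F * G - F * pderiv none G)).IsHomogeneous (d + (e + e)) := by
  rcases Nat.eq_zero_or_pos e with he | he
  · subst he
    have h1 : ∀ F : MvPolynomial (Option (Fin (m + 1) × Fin 2)) k, F.IsHomogeneous 0 →
        pderiv none F = 0 := by
      intro F hF
      have h2 : F.totalDegree = 0 := Nat.le_zero.mp hF.totalDegree_le
      rw [totalDegree_eq_zero_iff_eq_C] at h2
      rw [h2, pderiv_C]
    rw [h1 F hF, h1 G hG, zero_mul, mul_zero, sub_zero, mul_zero]
    exact isHomogeneous_zero _ _ _
  · obtain ⟨l, rfl⟩ := Nat.exists_eq_succ_of_ne_zero he.ne'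
    have h1 := (pderiv_homog hF none (l := l) rfl).mul hG
    have h2 := hF.mul (pderiv_homog hG none (l := l) rfl)
    have h3 : (F * pderiv none G).IsHomogeneous (l + (l + 1)) := by
      rw [show l + (l + 1) = (l + 1) + l by ring]
      exact h2
    have h4 := hP.mul (h1.sub h3)
    have h5 : d + 1 + (l + l.succ) = d + (l.succ + l.succ) := by
      simp only [Nat.succ_eq_add_one]
      ring
    rwa [h5] at h4

theorem mul_DD_mem [CharP k 2] {s : (quadVar k m).ConeField}
    (hs : s ∈ (quadVar k m).rationalSections) {u : (quadVar k m).ConeField}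
    (hu : u ∈ (quadVar k m).functionField) : s * DD k m u ∈ (quadVar k m).functionField := by
  obtain ⟨e, F, G, hF, hG, hG0, huFG⟩ := (quadVar k m).exists_forms ⟨u, hu⟩
  change u = _ at huFG
  subst huFG
  unfold ProjVariety.rationalSections at hs
  refine Submodule.span_induction (p := fun s _ => s * DD k m _ ∈ (quadVar k m).functionField)
    ?_ ?_ ?_ ?_ hs
  · rintro _ ⟨i, rfl⟩
    have h1 := num_homog (k := k) (m := m) (d := 0) (P := X i) hF hG (isHomogeneous_X k i)
    rw [zero_add] at h1
    rw [DD_div _ _ hG0, ← mul_div_assoc, ← ProjVariety.el_mul]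
    exact (quadVar k m).ratio_mem _ _ _ h1 (hG.mul hG)
  · rw [zero_mul]
    exact zero_mem _
  · intro x y _ _ hx hy
    rw [add_mul]
    exact add_mem hx hy
  · intro a x _ hx
    have h1 : a • x * DD k m ((quadVar k m).el F / (quadVar k m).el G) =
        (a : (quadVar k m).ConeField) * (x * DD k m ((quadVar k m).el F / (quadVar k m).el G)) := by
      rw [IntermediateField.smul_def, smul_eq_mul, mul_assoc]
    rw [h1]
    exact mul_mem a.2 hx

/-- the derivation `s ∂/∂z` of the function field -/
noncomputable def secDer [CharP k 2] (s : (quadVar k m).rationalSections) :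
    Derivation k (quadVar k m).functionField (quadVar k m).functionField :=
  Derivation.mk'
    { toFun := fun u => ⟨(s : (quadVar k m).ConeField) * DD k m (u : (quadVar k m).ConeField),
        mul_DD_mem s.2 u.2⟩
      map_add' := by
        intro u v
        apply Subtype.ext
        simp [mul_add]
      map_smul' := by
        intro c u
        apply Subtype.ext
        simp }
    (by
      intro u v
      apply Subtype.ext
      change (s : (quadVar k m).ConeField) * DD k m (u * v : (quadVar k m).ConeField) =
        (u : (quadVar k m).ConeField) * (s * DD k m v) + v * (s * DD k m u)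
      rw [Derivation.leibniz, smul_eq_mul, smul_eq_mul]
      ring)

theorem secDer_apply [CharP k 2] (s : (quadVar k m).rationalSections)
    (u : (quadVar k m).functionField) :
    ((secDer s u : (quadVar k m).functionField) : (quadVar k m).ConeField) =
      (s : (quadVar k m).ConeField) * DD k m (u : (quadVar k m).ConeField) := rfl

/-- the morphism `O(1) → T` -/
noncomputable def Phi (k : Type*) [Field k] (m : ℕ) [CharP k 2] :
    (quadVar k m).rationalSections →ₗ[(quadVar k m).functionField]
      Derivation k (quadVar k m).functionField (quadVar k m).functionField where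
  toFun := secDer
  map_add' := by
    intro s t
    apply Derivation.ext
    intro u
    apply Subtype.ext
    change ((s : (quadVar k m).ConeField) + t) * DD k m (u : (quadVar k m).ConeField) =
      s * DD k m u + t * DD k m u
    ring
  map_smul' := by
    intro c s
    apply Derivation.ext
    intro u
    apply Subtype.ext
    change ((c : (quadVar k m).ConeField) * s) * DD k m (u : (quadVar k m).ConeField) =
      c * (s * DD k m u)
    ring

theorem Phi_apply [CharP k 2] (s : (quadVar k m).rationalSections)
    (u : (quadVar k m).functionField) :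
    ((Phi k m s u : (quadVar k m).functionField) : (quadVar k m).ConeField) =
      (s : (quadVar k m).ConeField) * DD k m (u : (quadVar k m).ConeField) := rfl

theorem el_ne_of_eval {z : Option (Fin (m + 1) × Fin 2) → k} (hz : z ∈ (quadVar k m).points)
    {G : MvPolynomial (Option (Fin (m + 1) × Fin 2)) k} (hG : eval z G ≠ 0) :
    (quadVar k m).el G ≠ 0 := by
  rw [Ne, ProjVariety.el_eq_zero_iff]
  exact fun h => hG (hz.2 G h)

theorem Phi_morphism [CharP k 2] : (quadVar k m).IsHyperplaneToTangent (Phi k m) := by
  rintro z hz s ⟨d, F, G, hF, hG, hGz, hs⟩ u ⟨e, P, Q, hP, hQ, hQz, hu⟩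
  have hG0 := el_ne_of_eval hz hGz
  have hQ0 := el_ne_of_eval hz hQz
  refine ⟨d + (e + e), F * (pderiv none P * Q - P * pderiv none Q), G * (Q * Q),
    num_homog hP hQ hF, hG.mul (hQ.mul hQ), ?_, ?_⟩
  · rw [map_mul, map_mul]
    exact mul_ne_zero hGz (mul_ne_zero hQz hQz)
  · rw [Phi_apply, hs, hu, DD_div _ _ hQ0, ProjVariety.el_mul _ F, ProjVariety.el_mul _ G,
      div_mul_div_comm]

theorem Phi_nonzero [CharP k 2] (z : Option (Fin (m + 1) × Fin 2) → k)
    (hz : z ∈ (quadVar k m).points) : ∃ s ∈ (quadVar k m).hyperplaneStalk z,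
      ∃ u ∈ (quadVar k m).localRing z, Phi k m s u = 1 := by
  classical
  obtain ⟨a, ha⟩ := quad_point z hz
  have ha0 : (quadVar k m).el (X (some a)) ≠ 0 := xi_some_ne a
  refine ⟨⟨(quadVar k m).el (X (some a)), Submodule.subset_span ⟨some a, rfl⟩⟩,
    ⟨0, X (some a), 1, by simpa using isHomogeneous_X k (some a), isHomogeneous_one _ _, by simp, ?_⟩,
    ⟨(quadVar k m).el (X none) / (quadVar k m).el (X (some a)),
      (quadVar k m).coord_ratio_mem none (some a)⟩,
    ⟨1, X none, X (some a), isHomogeneous_X _ _, isHomogeneous_X _ _, by simpa using ha, rfl⟩, ?_⟩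
  · have h1 : (quadVar k m).el (1 : MvPolynomial (Option (Fin (m + 1) × Fin 2)) k) = 1 := by
      simp [ProjVariety.el]
    rw [h1, div_one]
  · apply Subtype.ext
    rw [Phi_apply]
    change (quadVar k m).el (X (some a)) *
      DD k m ((quadVar k m).el (X none) / (quadVar k m).el (X (some a))) = 1
    rw [DD_div _ _ ha0, pderiv_X_self, pderiv_X_of_ne (by simp), mul_zero, sub_zero, one_mul,
      ProjVariety.el_mul]
    field_simp

end Pool.Agent.Y234.AM
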