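import Pool.Agent.Y234.AM.Iso
import Pool.Agent.Y234.AM.Tan

/-!
# The odd-dimensional quadrics in characteristic two are not isomorphic to projective spaces
-/

namespace Pool.Agent.Y234.AM

open MvPolynomial Pool.Agent.H824

section quadpar

variable (k : Type*) [Field k] (m : ℕ)

/-- the coordinate ring of the quadric as a subring of the polynomial ring -/
noncomputable def quadLift : (quadVar k m).CoordRing →ₐ[k] MvPolynomial (Fin (m + 1) × Fin 2) k :=
  Ideal.Quotient.liftₐ (quadVar k m).ideal (aeval (gq k m)) (fun F hF => (quad_mem F).mp hF)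

theorem quadLift_mk (F : MvPolynomial (Option (Fin (m + 1) × Fin 2)) k) :
    quadLift k m ((quadVar k m).toCoord F) = aeval (gq k m) F := rfl

theorem quadLift_inj : Function.Injective (quadLift k m) := by
  rw [injective_iff_map_eq_zero]
  intro a ha
  obtain ⟨F, rfl⟩ := Ideal.Quotient.mk_surjective a
  have h1 : aeval (gq k m) F = 0 := ha
  exact Ideal.Quotient.eq_zero_iff_mem.mpr ((quad_mem F).mpr h1)

/-- the fraction field of the parameters -/
abbrev PF : Type _ := FractionRing (MvPolynomial (Fin (m + 1) × Fin 2) k)

/-- the coordinate ring of the quadric as a subring of the field of the parameters -/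
noncomputable def quadHom : (quadVar k m).CoordRing →ₐ[k] PF k m :=
  (IsScalarTower.toAlgHom k (MvPolynomial (Fin (m + 1) × Fin 2) k) (PF k m)).comp (quadLift k m)

theorem quadHom_inj : Function.Injective (quadHom k m) := by
  intro a b h
  apply quadLift_inj k m
  exact IsFractionRing.injective (MvPolynomial (Fin (m + 1) × Fin 2) k) (PF k m) h

/-- the cone field of the quadric as a subfield of the field of the parameters -/
noncomputable def quadPsi : (quadVar k m).ConeField →ₐ[k] PF k m :=
  IsFractionRing.liftAlgHom (g := quadHom k m) (quadHom_inj k m)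

theorem quadPsi_el (F : MvPolynomial (Option (Fin (m + 1) × Fin 2)) k) :
    quadPsi k m ((quadVar k m).el F) =
      algebraMap (MvPolynomial (Fin (m + 1) × Fin 2) k) (PF k m) (aeval (gq k m) F) := by
  unfold quadPsi ProjVariety.el
  rw [IsFractionRing.liftAlgHom_apply, IsFractionRing.lift_algebraMap]
  rfl

/-- the parametrization of the quadric -/
noncomputable def quadPar [CharP k 2] :
    Par (quadVar k m) (Fin (m + 1) × Fin 2) (PF k m) where
  g := gq k m
  φ := IsScalarTower.toAlgHom k (MvPolynomial (Fin (m + 1) × Fin 2) k) (PF k m)
  inj := IsFractionRing.injective _ _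
  ψ := quadPsi k m
  q := 2
  homog := gq_homog k m
  ψ_el := quadPsi_el k m
  pt := by
    intro s hs
    refine ⟨?_, ?_⟩
    · obtain ⟨a, ha⟩ := Function.ne_iff.mp hs
      intro h
      have h1 := congrFun h (some a)
      change eval s (X a ^ 2) = 0 at h1
      rw [map_pow, eval_X] at h1
      exact ha (pow_eq_zero_iff two_ne_zero |>.mp h1)
    · intro F hF
      rw [← eval_aeval, (quad_mem F).mp hF, map_zero]

end quadpar

section projpar

variable (k : Type*) [Field k] (n : ℕ)

/-- the projective space -/
noncomputable abbrev PS : ProjVariety k (Fin (n + 1)) := projectiveSpace k (Fin (n + 1))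

/-- the coordinate ring of the projective space in its fraction field -/
noncomputable def projPhi : MvPolynomial (Fin (n + 1)) k →ₐ[k] (PS k n).ConeField :=
  (IsScalarTower.toAlgHom k (PS k n).CoordRing (PS k n).ConeField).comp (PS k n).toCoord

theorem projPhi_apply (F : MvPolynomial (Fin (n + 1)) k) : projPhi k n F = (PS k n).el F := rfl

theorem projPhi_inj : Function.Injective (projPhi k n) := by
  rw [injective_iff_map_eq_zero]
  intro F hF
  rw [projPhi_apply, ProjVariety.el_eq_zero_iff] at hF
  exact (Ideal.mem_bot).mp hF

theorem proj_el_X_ne (i : Fin (n + 1)) : (PS k n).el (X i) ≠ 0 := by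
  rw [← projPhi_apply]
  intro h
  exact X_ne_zero i (projPhi_inj k n (by rw [h, map_zero]))

theorem mem_proj_points (s : Fin (n + 1) → k) (hs : s ≠ 0) : s ∈ (PS k n).points := by
  refine ⟨hs, ?_⟩
  intro F hF
  have h1 : F = 0 := (Ideal.mem_bot).mp hF
  rw [h1, map_zero]

/-- the trivial parametrization of the projective space -/
noncomputable def projPar : Par (PS k n) (Fin (n + 1)) (PS k n).ConeField where
  g := X
  φ := projPhi k n
  inj := projPhi_inj k n
  ψ := AlgHom.id k _
  q := 1
  homog := fun i => isHomogeneous_X k i
  ψ_el := by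
    intro F
    rw [aeval_X_left_apply, projPhi_apply]
    rfl
  pt := by
    intro s hs
    have h1 : (fun i => eval s (X i : MvPolynomial (Fin (n + 1)) k)) = s := by
      funext i
      exact eval_X i
    rw [h1]
    exact mem_proj_points k n s hs

theorem proj_trdeg : Algebra.trdeg k (PS k n).functionField = n := by
  classical
  let F : Fin (n + 1) → (PS k n).ConeField := fun i => (PS k n).el (X i)
  have hF : AlgebraicIndependent k F := by
    rw [algebraicIndependent_iff]
    intro P hP
    have h1 : (PS k n).el P = 0 := by
      rw [ProjVariety.el_eq_aeval]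
      exact hP
    exact projPhi_inj k n (by rw [projPhi_apply, h1, map_zero])
  have hs := ratio_indep' F hF
  refine trdeg_of_pow (PS k n).functionField (fun i : Fin n => F i.succ / F 0)
    (fun i => (PS k n).coord_ratio_mem _ _) hs 1 one_pos ?_
  have hle : (PS k n).functionField ≤
      IntermediateField.adjoin k (Set.range (fun i : Fin n => F i.succ / F 0)) := by
    have hmem : ∀ i, F i / F 0 ∈
        IntermediateField.adjoin k (Set.range (fun i : Fin n => F i.succ / F 0)) := by
      intro i
      refine Fin.cases ?_ (fun i => ?_) i
      · rw [div_self (proj_el_X_ne k n 0)]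
        exact one_mem _
      · exact IntermediateField.subset_adjoin _ _ ⟨i, rfl⟩
    unfold ProjVariety.functionField ratioField
    rw [IntermediateField.adjoin_le_iff]
    rintro u ⟨i, j, rfl⟩
    change F i / F j ∈ IntermediateField.adjoin k _
    rw [← div_div_div_cancel_right₀ (proj_el_X_ne k n 0 : F 0 ≠ 0)]
    exact div_mem (hmem i) (hmem j)
  intro u hu
  rw [pow_one]
  exact hle hu

end projpar

end Pool.Agent.Y234.AM
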