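import Pool.Agent.Y234.AM.Non

/-!
# The odd-dimensional quadrics in characteristic two are not isomorphic to projective spaces, II
-/

namespace Pool.Agent.Y234.AM

open MvPolynomial Pool.Agent.H824

variable {k : Type*} [Field k] {m : ℕ}

theorem gq_linearIndependent [CharP k 2] : LinearIndependent k (gq k m) := by
  classical
  rw [Fintype.linearIndependent_iff]
  intro c hc
  rw [Fintype.sum_option] at hc
  have h1 := expand_indep (k := k) (m := m) (∑ a, C (c (some a)) * X a) (C (c none)) (by
    rw [map_sum, aeval_C]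
    simp only [map_mul, aeval_C, aeval_X]
    rw [← hc]
    simp only [Algebra.smul_def]
    exact add_comm _ _)
  intro i
  cases i with
  | none => simpa using h1.2
  | some a =>
    have h2 := congrArg (coeff (Finsupp.single a 1)) h1.1
    rw [coeff_sum, Finset.sum_eq_single a] at h2
    · simpa [coeff_C_mul, coeff_X] using h2
    · intro b _ hb
      rw [coeff_C_mul, coeff_X, if_neg, mul_zero]
      intro h
      exact hb (Finsupp.single_left_injective one_ne_zero h)
    · simp

/-- a form of degree one is a linear combination of the variables -/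
theorem linear_form {σ : Type*} [Fintype σ] {F : MvPolynomial σ k} (hF : F.IsHomogeneous 1) :
    F = ∑ b, C (coeff (Finsupp.single b 1) F) * X b := by
  classical
  have h1 : F ∈ homogeneousSubmodule σ k 1 := hF
  rw [homogeneousSubmodule_one_eq_span_X] at h1
  refine Submodule.span_induction (p := fun F _ => F = ∑ b, C (coeff (Finsupp.single b 1) F) * X b)
    ?_ ?_ ?_ ?_ h1
  · rintro _ ⟨a, rfl⟩
    change X a = _
    rw [Finset.sum_eq_single a]
    · rw [coeff_X, if_pos rfl, C_1, one_mul]
    · intro b _ hb
      rw [coeff_X, if_neg, C_0, zero_mul]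
      intro h
      exact hb (Finsupp.single_left_injective one_ne_zero h).symm
    · simp
  · simp
  · intro x y _ _ hx hy
    simp only [coeff_add, C_add, add_mul, Finset.sum_add_distrib]
    rw [← hx, ← hy]
  · intro a x _ hx
    simp only [coeff_smul, smul_eq_mul, C_mul, mul_assoc, ← Finset.mul_sum]
    rw [← hx, smul_eq_C_mul]

/-- linear forms without common zero span the space of the linear forms -/
theorem X_eq_sum {σ τ : Type*} [Fintype σ] [Fintype τ] (g : τ → MvPolynomial σ k)
    (hg : ∀ i, (g i).IsHomogeneous 1) (h0 : ∀ s : σ → k, s ≠ 0 → ∃ j, eval s (g j) ≠ 0) (b : σ) :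
    ∃ h : τ → k, (X b : MvPolynomial σ k) = ∑ i, C (h i) * g i := by
  classical
  let A : Matrix τ σ k := fun i b => coeff (Finsupp.single b 1) (g i)
  have hev : ∀ (s : σ → k) (i : τ), eval s (g i) = A.mulVec s i := by
    intro s i
    conv_lhs => rw [linear_form (hg i)]
    rw [map_sum]
    simp only [map_mul, eval_C, eval_X]
    rfl
  have hinj : Function.Injective A.mulVecLin := by
    rw [← LinearMap.ker_eq_bot, LinearMap.ker_eq_bot']
    intro s hs
    by_contra hne
    obtain ⟨j, hj⟩ := h0 s hne
    apply hj
    rw [hev]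
    exact congrFun hs j
  obtain ⟨L, hL⟩ := LinearMap.exists_leftInverse_of_injective A.mulVecLin
    (LinearMap.ker_eq_bot.mpr hinj)
  have hLA : LinearMap.toMatrix' L * A = 1 := by
    have h1 := congrArg LinearMap.toMatrix' hL
    rw [LinearMap.toMatrix'_comp, LinearMap.toMatrix'_id] at h1
    have h2 : LinearMap.toMatrix' A.mulVecLin = A := by
      rw [← Matrix.toLin'_apply', LinearMap.toMatrix'_toLin']
    rwa [h2] at h1
  refine ⟨fun i => LinearMap.toMatrix' L b i, ?_⟩
  have h3 : ∑ i, C (LinearMap.toMatrix' L b i) * g i =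
      ∑ b', C ((LinearMap.toMatrix' L * A) b b') * X b' := by
    have h4 : ∀ i, C (LinearMap.toMatrix' L b i) * g i =
        ∑ b', C (LinearMap.toMatrix' L b i * A i b') * X b' := by
      intro i
      conv_lhs => rw [linear_form (hg i)]
      rw [Finset.mul_sum]
      apply Finset.sum_congr rfl
      intro b' _
      rw [C_mul, mul_assoc]
    simp only [h4]
    rw [Finset.sum_comm]
    apply Finset.sum_congr rfl
    intro b' _
    rw [← Finset.sum_mul, ← map_sum]
    rfl
  rw [h3, hLA, Finset.sum_eq_single b]
  · simp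
  · intro b' _ hb
    rw [Matrix.one_apply_ne hb.symm, C_0, zero_mul]
  · simp

/-- a linear vector field on the space of the parameters that annihilates the coordinates of the
quadric -/
noncomputable def D0 (k : Type*) [Field k] (m : ℕ) (i1 : Fin (m + 1)) :
    Derivation k (MvPolynomial (Fin (m + 1) × Fin 2) k) (MvPolynomial (Fin (m + 1) × Fin 2) k) :=
  (X (i1, 1) : MvPolynomial (Fin (m + 1) × Fin 2) k) • pderiv ((0 : Fin (m + 1)), (0 : Fin 2)) +
    (X (0, 1) : MvPolynomial (Fin (m + 1) × Fin 2) k) • pderiv (i1, (0 : Fin 2))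

theorem pderiv_sigma (i : Fin (m + 1)) : pderiv (i, (0 : Fin 2))
    (gq k m none) = X (i, 1) := by
  classical
  unfold gq
  rw [map_sum, Finset.sum_eq_single i]
  · rw [Derivation.leibniz, pderiv_X_self, pderiv_X_of_ne (by simp)]
    simp
  · intro b _ hb
    have h1 : (b, (0 : Fin 2)) ≠ (i, 0) := fun h => hb (Prod.mk.inj h).1
    rw [Derivation.leibniz, pderiv_X_of_ne h1, pderiv_X_of_ne (by simp)]
    simp
  · simp

theorem D0_gq [CharP k 2] (i1 : Fin (m + 1)) (F : MvPolynomial (Option (Fin (m + 1) × Fin 2)) k) :
    D0 k m i1 (aeval (gq k m) F) = 0 := by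
  classical
  have h2 : (2 : MvPolynomial (Fin (m + 1) × Fin 2) k) = 0 := two_eq_zero_poly _
  rw [der_aeval]
  apply Finset.sum_eq_zero
  intro i _
  cases i with
  | some a =>
    change _ * D0 k m i1 (X a ^ 2) = 0
    rw [der_sq h2, mul_zero]
  | none =>
    unfold D0
    rw [Derivation.add_apply, Derivation.smul_apply, Derivation.smul_apply, pderiv_sigma,
      pderiv_sigma, smul_eq_mul, smul_eq_mul, mul_comm (X (0, 1)), ← two_mul, h2, zero_mul,
      mul_zero]

end Pool.Agent.Y234.AM
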