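import Pool.Agent.H824.AmpStmt
import Pool.Agent.Y234.AM.Tan
import Pool.Agent.Y234.AM.Fin

/-!
# The final statement in the short form
-/

namespace Pool.Agent.Y234.AM

open MvPolynomial Pool.Agent.H824

section

variable {k : Type} [Field k] {ι : Type} (V : ProjVariety k ι)

theorem localAt_eq (z : ι → k) : V.localAt z = (V.localRing z : Set V.functionField) := by
  ext u
  constructor
  · rintro ⟨F, G, ⟨d, hF, hG, hz⟩, h⟩
    exact ⟨d, F, G, hF, hG, hz, h⟩
  · rintro ⟨d, F, G, hF, hG, hz, h⟩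
    exact ⟨F, G, ⟨d, hF, hG, hz⟩, h⟩

theorem hyperplaneAt_eq (z : ι → k) :
    V.hyperplaneAt z = (V.hyperplaneStalk z : Set V.rationalSections) := by
  ext u
  constructor
  · rintro ⟨F, G, ⟨d, hF, hG, hz⟩, h⟩
    exact ⟨d, F, G, hF, hG, hz, h⟩
  · rintro ⟨d, F, G, hF, hG, hz, h⟩
    exact ⟨F, G, ⟨d, hF, hG, hz⟩, h⟩

theorem tangentAt_eq (z : ι → k) :
    V.tangentAt z = (V.tangentStalk z : Set (Derivation k V.functionField V.functionField)) := by
  have h := localAt_eq V z
  ext D
  constructor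
  · intro hD u hu
    have h1 : V.derive D u ∈ V.localAt z := hD u (by rw [h]; exact hu)
    rw [h] at h1
    exact h1
  · intro hD u hu
    rw [h] at hu ⊢
    exact hD u hu

end

/-- the short form of the main theorem -/
theorem main (k : Type) [Field k] [IsAlgClosed k] [CharP k 2] (m : ℕ) (hm : 1 ≤ m) :
    ∃ V : ProjVariety k (QVar m), V.ideal = Ideal.span {quadForm k m} ∧ V.dim = 2 * m + 1 ∧
      V.IsSmooth ∧
      (∃ Φ : V.RatSec →ₗ[V.FunField] V.RatVec, V.IsMorphism Φ ∧ ∀ z ∈ V.points, V.NonzeroAt Φ z) ∧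
      ∀ n : ℕ, ¬ V.IsIsoTo (projSpace k (Fin (n + 1))) := by
  refine ⟨(quadVar k m : ProjVariety k (Option (Fin (m + 1) × Fin 2))), quad_ideal, quad_dim,
    quad_smooth, ⟨Phi k m, ?_, ?_⟩, ?_⟩
  · intro z hz s hs
    have h1 := hyperplaneAt_eq (quadVar k m) z
    have h2 := tangentAt_eq (quadVar k m) z
    have h3 : (show (quadVar k m).rationalSections from s) ∈ (quadVar k m).hyperplaneStalk z := by
      rw [← h1]
      exact hs
    have h4 := Phi_morphism z hz s h3
    rw [← h2] at h4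
    exact h4
  · intro z hz
    obtain ⟨s, hs, u, hu, h⟩ := Phi_nonzero z hz
    refine ⟨s, ?_, u, ?_, h⟩
    · have h1 := hyperplaneAt_eq (quadVar k m) z
      rw [← h1] at hs
      exact hs
    · have h1 := localAt_eq (quadVar k m) z
      rw [← h1] at hu
      exact hu
  · rintro n ⟨θ, h1, h2⟩
    refine not_iso hm n ⟨θ, ?_, ?_⟩
    · intro z hz
      obtain ⟨w, hw, h⟩ := h1 z hz
      refine ⟨w, hw, ?_⟩
      have h3 := localAt_eq (quadVar k m) z
      have h4 := localAt_eq (projectiveSpace k (Fin (n + 1))) w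
      rw [← h3, ← h4]
      exact h
    · intro w hw
      obtain ⟨z, hz, h⟩ := h2 w hw
      refine ⟨z, hz, ?_⟩
      have h3 := localAt_eq (quadVar k m) z
      have h4 := localAt_eq (projectiveSpace k (Fin (n + 1))) w
      rw [← h3, ← h4]
      exact h

end Pool.Agent.Y234.AM
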